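import Mathlib
import Pool.Agent.H1.CM.Targets3

/-!
# The rings of the charts of `Proj`, part 1 (module AW)
-/

open MvPolynomial

namespace Pool.Agent.H1.CM

namespace AWx

section

variable {P : Type} [CommRing P] (D : Data P)

/-- Forms in the homogeneous coordinate ring. -/
noncomputable def me : MvPolynomial (Fin 3) P →ₐ[P] SD D :=
  (Ideal.Quotient.mkₐ P (ID D)).comp emb

lemma me_apply (p : MvPolynomial (Fin 3) P) : me D p = Ideal.Quotient.mk (ID D) (emb p) := rfl

lemma me_X (r : Fin 3) : me D (X r) = xg D r := by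
  rw [me_apply]
  unfold emb
  rw [rename_X]
  rfl

lemma me_monomial (ν : Fin 3 →₀ ℕ) (a : P) :
    me D (monomial ν a) = algebraMap P (SD D) a * me D (monomial ν 1) := by
  have h1 : monomial ν a = C a * monomial ν (1 : P) := by
    rw [C_mul_monomial, mul_one]
  have h2 : me D (C a) = algebraMap P (SD D) a := by
    rw [← MvPolynomial.algebraMap_eq]
    exact AlgHom.commutes _ _
  rw [h1, map_mul, h2]

lemma me_monomial_one (ν : Fin 3 →₀ ℕ) :
    me D (monomial ν 1) = ∏ r, xg D r ^ ν r := by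
  have : (monomial ν (1 : P)) = ∏ r, X r ^ ν r := by
    rw [monomial_eq, C_1, one_mul, Finsupp.prod_fintype]
    intro i
    rw [pow_zero]
  rw [this, map_prod]
  exact Finset.prod_congr rfl fun r _ => by rw [map_pow, me_X]

lemma xg_reg (h1 : T_GB) (r : Fin 3) (f : SD D) (h : xg D r * f = 0) : f = 0 := by
  obtain ⟨p, hp, -⟩ := h1 D f
  obtain ⟨p0, -, hu⟩ := h1 D (0 : SD D)
  have e0 : (0 : SD D) = ∑ t : Fin 4, Ideal.Quotient.mk (ID D) (emb (X r * p t)) * eg D t := by
    rw [← h, hp, Finset.mul_sum]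
    refine Finset.sum_congr rfl fun t _ => ?_
    rw [← me_apply, ← me_apply, map_mul, me_X, mul_assoc]
  have e1 := hu _ e0
  have e2 := hu (fun _ => 0) (by simp)
  have e3 : ∀ t, p t = 0 := by
    intro t
    have h3 : X r * p t = X r * 0 := by
      have := congrFun (e1.trans e2.symm) t
      simpa using this
    exact isRegular_X.left h3
  rw [hp]
  simp [e3]

lemma xg_nzd (h1 : T_GB) (r : Fin 3) : xg D r ∈ nonZeroDivisors (SD D) := by
  rw [mem_nonZeroDivisors_iff_right]
  intro f hf
  exact xg_reg D h1 r f (by rw [mul_comm]; exact hf)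

lemma fS_nzd (h1 : T_GB) (S : Finset (Fin 3)) : fS D S ∈ nonZeroDivisors (SD D) := by
  unfold fS
  exact Submonoid.prod_mem _ fun r _ => xg_nzd D h1 r

/-- The localization at `xyz`. -/
abbrev LL : Type := Localization.Away (fS D Finset.univ)

/-- The localization map. -/
noncomputable abbrev al : SD D →+* LL D := algebraMap (SD D) (LL D)

lemma al_inj (h1 : T_GB) : Function.Injective (al D) :=
  IsLocalization.injective (M := Submonoid.powers (fS D Finset.univ)) _
    (Submonoid.powers_le.mpr (fS_nzd D h1 _))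

lemma isUnit_x (r : Fin 3) : IsUnit (al D (xg D r)) :=
  isUnit_of_dvd_unit (map_dvd (al D) (Finset.dvd_prod_of_mem _ (Finset.mem_univ r)))
    (IsLocalization.Away.algebraMap_isUnit (fS D Finset.univ))

/-- The units `x, y, z`. -/
noncomputable def ux (r : Fin 3) : (LL D)ˣ := (isUnit_x D r).unit

lemma ux_val (r : Fin 3) : ((ux D r : (LL D)ˣ) : LL D) = al D (xg D r) := IsUnit.unit_spec _

/-- The units `fS`. -/
noncomputable def uS (S : Finset (Fin 3)) : (LL D)ˣ := ∏ r ∈ S, ux D r

lemma uS_val (S : Finset (Fin 3)) : ((uS D S : (LL D)ˣ) : LL D) = al D (fS D S) := by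
  have h : fS D S = ∏ r ∈ S, xg D r := rfl
  rw [h, map_prod, uS, Units.coe_prod]
  exact Finset.prod_congr rfl fun r _ => ux_val D r

/-- The monomials. -/
noncomputable def monL (s : Idx) : LL D :=
  ((∏ r, ux D r ^ expo s r : (LL D)ˣ) : LL D) * al D (eg D s.2.2)

/-- The structure map. -/
noncomputable def iL : P →+* LL D := (al D).comp (algebraMap P (SD D))

lemma uS_pow (S : Finset (Fin 3)) (m : ℕ) :
    uS D S ^ m = ∏ r, ux D r ^ (if r ∈ S then (m : ℤ) else 0) := by
  unfold uS
  rw [← Finset.prod_pow]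
  have : ∀ r, ux D r ^ (if r ∈ S then (m : ℤ) else 0) = if r ∈ S then ux D r ^ m else 1 := by
    intro r
    split_ifs <;> simp
  simp_rw [this]
  rw [Finset.prod_ite_mem, Finset.univ_inter]

lemma monL_clear (S : Finset (Fin 3)) (m : ℕ) (s : Idx) (ν : Fin 3 →₀ ℕ)
    (hν : ∀ r, (ν r : ℤ) = expo s r + if r ∈ S then (m : ℤ) else 0) :
    monL D s * al D (fS D S) ^ m = al D (me D (monomial ν 1) * eg D s.2.2) := by
  unfold monL
  have e1 : al D (fS D S) ^ m = ((uS D S ^ m : (LL D)ˣ) : LL D) := by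
    rw [Units.val_pow_eq_pow_val, uS_val]
  have e2 : (∏ r, ux D r ^ expo s r) * uS D S ^ m = ∏ r, ux D r ^ ν r := by
    rw [uS_pow, ← Finset.prod_mul_distrib]
    refine Finset.prod_congr rfl fun r _ => ?_
    rw [← zpow_add, ← hν r, zpow_natCast]
  have e3 : ((∏ r, ux D r ^ ν r : (LL D)ˣ) : LL D) = al D (me D (monomial ν 1)) := by
    rw [me_monomial_one, Units.coe_prod, map_prod]
    refine Finset.prod_congr rfl fun r _ => ?_
    rw [Units.val_pow_eq_pow_val, ux_val, map_pow]
  rw [e1, mul_right_comm, ← Units.val_mul, e2, e3, map_mul]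

lemma me_mem {p : MvPolynomial (Fin 3) P} {d : ℕ} (hp : p.IsHomogeneous d) :
    me D p ∈ grD D d := ⟨emb p, emb_hom hp, rfl⟩

lemma eg_mem [Fact D.Homog] (t : Fin 4) : eg D t ∈ grD D (dgN t) := by
  fin_cases t
  · exact SetLike.GradedOne.one_mem (A := grD D)
  · exact ⟨X 3, X_hom (P := P) 3, rfl⟩
  · exact ⟨X 4, X_hom (P := P) 4, rfl⟩
  · exact ⟨X 3 * X 4, (X_hom (P := P) 3).mul (X_hom (P := P) 4), rfl⟩

lemma term_mem [Fact D.Homog] (ν : Fin 3 →₀ ℕ) (t : Fin 4) (c : P) (n : ℕ)
    (h : ∑ r, ν r + dgN t = n) : me D (monomial ν c) * eg D t ∈ grD D n := by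
  subst h
  refine SetLike.GradedMul.mul_mem (A := grD D) (me_mem D ?_) (eg_mem D t)
  refine isHomogeneous_monomial c ?_
  rw [Finsupp.degree_eq_sum]

/-- The index of a monomial. -/
def sidx (S : Finset (Fin 3)) (m : ℕ) (ν : Fin 3 →₀ ℕ) (t : Fin 4) : Idx :=
  ((ν 0 : ℤ) - (if (0 : Fin 3) ∈ S then (m : ℤ) else 0),
    (ν 1 : ℤ) - (if (1 : Fin 3) ∈ S then (m : ℤ) else 0), t)

lemma card_eq (S : Finset (Fin 3)) : (S.card : ℤ) = (if (0 : Fin 3) ∈ S then 1 else 0)
    + (if (1 : Fin 3) ∈ S then 1 else 0) + (if (2 : Fin 3) ∈ S then 1 else 0) := by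
  revert S
  decide

lemma dg_eq (t : Fin 4) : dg t = (dgN t : ℤ) := by
  fin_cases t <;> rfl

lemma expo_sidx (S : Finset (Fin 3)) (m : ℕ) (ν : Fin 3 →₀ ℕ) (t : Fin 4)
    (h : ∑ r, ν r + dgN t = m * S.card) (r : Fin 3) :
    (ν r : ℤ) = expo (sidx S m ν t) r + if r ∈ S then (m : ℤ) else 0 := by
  have h' : ((∑ r, ν r + dgN t : ℕ) : ℤ) = (m : ℤ) * (S.card : ℤ) := by
    rw [h]; push_cast; ring
  rw [card_eq, Fin.sum_univ_three] at h'
  push_cast at h'
  fin_cases r
  · simp [expo, sidx]
  · simp [expo, sidx]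
  · simp only [expo, sidx, dg_eq]
    have h3 : (m : ℤ) * ((if (0 : Fin 3) ∈ S then 1 else 0)
      + (if (1 : Fin 3) ∈ S then 1 else 0) + (if (2 : Fin 3) ∈ S then 1 else 0)) =
      (if (0 : Fin 3) ∈ S then (m : ℤ) else 0) + (if (1 : Fin 3) ∈ S then (m : ℤ) else 0)
        + (if (2 : Fin 3) ∈ S then (m : ℤ) else 0) := by
      simp only [mul_add, mul_ite, mul_one, mul_zero]
    rw [h3] at h'
    change (ν 2 : ℤ) = (-((ν 0 : ℤ) - (if (0 : Fin 3) ∈ S then (m : ℤ) else 0))
      - ((ν 1 : ℤ) - (if (1 : Fin 3) ∈ S then (m : ℤ) else 0)) - (dgN t : ℤ))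
      + (if (2 : Fin 3) ∈ S then (m : ℤ) else 0)
    linarith

lemma expand [Fact D.Homog] (h2 : T_GH) (S : Finset (Fin 3)) (m : ℕ) (G : SD D)
    (hG : G ∈ grD D (m * S.card)) :
    ∃ c, InSpan (iL D) (monL D) (reg S) c ∧ al D G = c * al D (fS D S) ^ m := by
  obtain ⟨p, hp, hG'⟩ := (h2 D _ G).1 hG
  have hdeg : ∀ t, ∀ ν ∈ (p t).support, ∑ r, ν r + dgN t = m * S.card := by
    intro t ν hν
    by_cases ht : dgN t ≤ m * S.card
    · have h3 := hp.hom t ht (MvPolynomial.mem_support_iff.mp hν)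
      rw [Finsupp.weight_apply, Finsupp.sum_fintype _ _ (by simp)] at h3
      simp only [Pi.one_apply, smul_eq_mul, mul_one] at h3
      omega
    · have h3 := hp.zero t (by omega)
      rw [h3] at hν
      simp at hν
  refine ⟨∑ t, ∑ ν ∈ (p t).support, iL D (coeff ν (p t)) * monL D (sidx S m ν t), ?_, ?_⟩
  · refine InSpan.sum _ fun t _ => InSpan.sum _ fun ν hν => InSpan.smul _ (InSpan.of_mem ?_)
    intro r hr
    have := expo_sidx S m ν t (hdeg t ν hν) r
    rw [if_neg hr, add_zero] at this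
    rw [← this]
    positivity
  · rw [hG', Finset.sum_mul, map_sum]
    refine Finset.sum_congr rfl fun t _ => ?_
    rw [← me_apply]
    conv_lhs => rw [(p t).as_sum]
    rw [map_sum, Finset.sum_mul, Finset.sum_mul, map_sum]
    refine Finset.sum_congr rfl fun ν hν => ?_
    rw [mul_assoc, monL_clear D S m (sidx S m ν t) ν (expo_sidx S m ν t (hdeg t ν hν)),
      me_monomial, mul_assoc, map_mul]
    rfl

/-- The large exponent. -/
lemma exists_bound (g : Idx →₀ P) : ∃ M : ℕ, ∀ s ∈ g.support, ∀ r, 0 ≤ expo s r + (M : ℤ) := by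
  classical
  refine ⟨∑ s ∈ g.support, ∑ r, (expo s r).natAbs, fun s hs r => ?_⟩
  have h1 : (expo s r).natAbs ≤ ∑ r, (expo s r).natAbs :=
    Finset.single_le_sum (f := fun r => (expo s r).natAbs) (fun _ _ => Nat.zero_le _)
      (Finset.mem_univ r)
  have h2 : ∑ r, (expo s r).natAbs ≤ ∑ s ∈ g.support, ∑ r, (expo s r).natAbs :=
    Finset.single_le_sum (f := fun s => ∑ r, (expo s r).natAbs) (fun _ _ => Nat.zero_le _) hs
  omega

lemma comb_inj (h1 : T_GB) : Function.Injective (comb (iL D) (monL D)) := by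
  classical
  have key : ∀ g : Idx →₀ P, comb (iL D) (monL D) g = 0 → g = 0 := by
    intro g hg
    obtain ⟨M, hM⟩ := exists_bound g
    let ν : Idx → (Fin 3 →₀ ℕ) := fun s =>
      Finsupp.equivFunOnFinite.symm (fun r => (expo s r + (M : ℤ)).toNat)
    have hν : ∀ s ∈ g.support, ∀ r, ((ν s) r : ℤ) = expo s r +
        if r ∈ (Finset.univ : Finset (Fin 3)) then (M : ℤ) else 0 := by
      intro s hs r
      simp only [ν, Finsupp.equivFunOnFinite_symm_apply_apply, Finset.mem_univ, if_true]
      exact Int.toNat_of_nonneg (hM s hs r)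
    let p : Fin 4 → MvPolynomial (Fin 3) P := fun t =>
      ∑ s ∈ g.support, if s.2.2 = t then monomial (ν s) (g s) else 0
    have e0 : (∑ t : Fin 4, me D (p t) * eg D t) = 0 := by
      apply al_inj D h1
      have e1 : (∑ t : Fin 4, me D (p t) * eg D t)
          = ∑ s ∈ g.support, me D (monomial (ν s) (g s)) * eg D s.2.2 := by
        simp only [p, map_sum, Finset.sum_mul]
        rw [Finset.sum_comm]
        refine Finset.sum_congr rfl fun s _ => ?_
        rw [Finset.sum_eq_single s.2.2]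
        · simp
        · intro t _ ht
          rw [if_neg (Ne.symm ht), map_zero, zero_mul]
        · intro h
          exact absurd (Finset.mem_univ _) h
      rw [e1, map_zero, map_sum]
      have e2 : comb (iL D) (monL D) g * al D (fS D Finset.univ) ^ M = 0 := by
        rw [hg, zero_mul]
      rw [← e2]
      unfold comb
      rw [Finsupp.sum, Finset.sum_mul]
      refine Finset.sum_congr rfl fun s hs => ?_
      rw [mul_assoc, monL_clear D Finset.univ M s (ν s) (hν s hs), me_monomial, mul_assoc,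
        map_mul]
      rfl
    obtain ⟨p0, -, hu⟩ := h1 D (0 : SD D)
    have e3 := hu p e0.symm
    have e4 := hu (fun _ => 0) (by simp)
    have e5 : ∀ t, p t = 0 := fun t => congrFun (e3.trans e4.symm) t
    ext s
    by_contra hs
    rw [Finsupp.coe_zero, Pi.zero_apply] at hs
    have hs' : s ∈ g.support := Finsupp.mem_support_iff.mpr hs
    have e6 := congrArg (coeff (ν s)) (e5 s.2.2)
    simp only [p, coeff_sum, coeff_zero] at e6
    rw [Finset.sum_eq_single s] at e6
    · rw [if_pos rfl, coeff_monomial, if_pos rfl] at e6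
      exact hs e6
    · intro s' hs1 hne
      by_cases ht : s'.2.2 = s.2.2
      · rw [if_pos ht, coeff_monomial, if_neg]
        intro hEq
        apply hne
        have h3 := hν s' hs1
        have h4 := hν s hs'
        rw [hEq] at h3
        have h5 : ∀ r, expo s' r = expo s r := by
          intro r
          have := h3 r
          have := h4 r
          linarith
        have h6 := h5 0
        have h7 := h5 1
        simp only [expo] at h6 h7
        refine Prod.ext h6 (Prod.ext h7 ht)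
      · rw [if_neg ht, coeff_zero]
    · intro h
      exact absurd hs' h
  intro g h hgh
  have := key (g - h) (by rw [comb_sub, hgh, sub_self])
  exact sub_eq_zero.mp this

end

end AWx

end Pool.Agent.H1.CM
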