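import Mathlib
import Pool.Agent.H19.CMX.AW1

/-!
# The rings of the charts of `Proj` (module AW)
-/

open MvPolynomial

namespace Pool.Agent.H1.CM

namespace AWx

section

variable {P : Type} [CommRing P] (D : Data P)

lemma ux_mul_erase (r : Fin 3) :
    (ux D r : LL D) * al D (fS D (Finset.univ.erase r)) = al D (fS D Finset.univ) := by
  have h : xg D r * fS D (Finset.univ.erase r) = fS D Finset.univ :=
    Finset.mul_prod_erase Finset.univ (fun r => xg D r) (Finset.mem_univ r)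
  rw [ux_val, ← map_mul, h]

/-- Functions `(x/z, y/z, N/z², w/z⁵)` in the full localization. -/
noncomputable def QL : Quad (LL D) where
  X := ux D 0 * (ux D 2)⁻¹
  Y := ux D 1 * (ux D 2)⁻¹
  n := al D (eg D 1) * ((ux D 2 ^ (-2 : ℤ) : (LL D)ˣ) : LL D)
  w := al D (eg D 2) * ((ux D 2 ^ (-5 : ℤ) : (LL D)ˣ) : LL D)

lemma eg_three : eg D 3 = eg D 1 * eg D 2 := by
  change Ideal.Quotient.mk (ID D) (X 3 * X 4) = Ideal.Quotient.mk (ID D) (X 3)
    * Ideal.Quotient.mk (ID D) (X 4)
  rw [map_mul]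

lemma eg_zero : eg D 0 = 1 := rfl

lemma QL_e (t : Fin 4) : (QL D).e t
    = al D (eg D t) * ((ux D 2 ^ (-dg t) : (LL D)ˣ) : LL D) := by
  fin_cases t
  · simp [Quad.e, dg, eg_zero]
  · rfl
  · rfl
  · change al D (eg D 1) * ((ux D 2 ^ (-2 : ℤ) : (LL D)ˣ) : LL D) *
      (al D (eg D 2) * ((ux D 2 ^ (-5 : ℤ) : (LL D)ˣ) : LL D))
      = al D (eg D 3) * ((ux D 2 ^ (-7 : ℤ) : (LL D)ˣ) : LL D)
    rw [eg_three, map_mul]
    have : (ux D 2 ^ (-7 : ℤ) : (LL D)ˣ) = ux D 2 ^ (-2 : ℤ) * ux D 2 ^ (-5 : ℤ) := by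
      rw [← zpow_add]
      norm_num
    rw [this, Units.val_mul]
    ring

lemma QL_mon (s : Idx) : (QL D).mon s = monL D s := by
  unfold Quad.mon monL
  rw [QL_e]
  have h1 : (QL D).X ^ s.1 * (QL D).Y ^ s.2.1 * ux D 2 ^ (-dg s.2.2)
      = ∏ r, ux D r ^ expo s r := by
    rw [Fin.prod_univ_three]
    change (ux D 0 * (ux D 2)⁻¹) ^ s.1 * (ux D 1 * (ux D 2)⁻¹) ^ s.2.1 * ux D 2 ^ (-dg s.2.2)
      = ux D 0 ^ s.1 * ux D 1 ^ s.2.1 * ux D 2 ^ (-s.1 - s.2.1 - dg s.2.2)
    rw [mul_zpow, mul_zpow, inv_zpow', inv_zpow', sub_eq_add_neg, sub_eq_add_neg, zpow_add,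
      zpow_add]
    exact mul_mul_mul_comm_aux _ _ _ _ _
  rw [← h1, Units.val_mul, Units.val_mul]
  ring
where
  mul_mul_mul_comm_aux {G : Type} [CommGroup G] (a b c d e : G) :
      a * b * (c * d) * e = a * c * (b * d * e) := by
    simp only [mul_comm, mul_left_comm]

lemma QL_vec (r : Fin 3) : (QL D).vec r
    = (((ux D 2)⁻¹ : (LL D)ˣ) : LL D) * al D (xg D r) := by
  rw [← ux_val]
  fin_cases r
  · change ((ux D 0 * (ux D 2)⁻¹ : (LL D)ˣ) : LL D) = _
    rw [Units.val_mul, mul_comm]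
    rfl
  · change ((ux D 1 * (ux D 2)⁻¹ : (LL D)ˣ) : LL D) = _
    rw [Units.val_mul, mul_comm]
    rfl
  · change (1 : LL D) = (((ux D 2)⁻¹ : (LL D)ˣ) : LL D) * (ux D 2 : LL D)
    rw [Units.inv_mul]

lemma eval_al (p : MvPolynomial (Fin 3) P) :
    MvPolynomial.eval₂ (iL D) (fun r => al D (xg D r)) p = al D (me D p) := by
  have h : (MvPolynomial.eval₂Hom (iL D) (fun r => al D (xg D r)))
      = (al D).comp (me D : MvPolynomial (Fin 3) P →+* SD D) := by
    apply MvPolynomial.ringHom_ext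
    · intro a
      rw [MvPolynomial.eval₂Hom_C]
      change al D (algebraMap P (SD D) a) = al D (me D (C a))
      rw [← MvPolynomial.algebraMap_eq, AlgHom.commutes]
    · intro i
      rw [MvPolynomial.eval₂Hom_X']
      change al D (xg D i) = al D (me D (X i))
      rw [me_X]
  exact congrArg (fun φ => φ p) h

lemma QL_ev {p : MvPolynomial (Fin 3) P} {d : ℕ} (hp : p.IsHomogeneous d) :
    (QL D).ev (iL D) p = (((ux D 2)⁻¹ : (LL D)ˣ) : LL D) ^ d * al D (me D p) := by
  rw [← eval_al]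
  unfold Quad.ev
  rw [MvPolynomial.eval₂_eq, MvPolynomial.eval₂_eq, Finset.mul_sum]
  refine Finset.sum_congr rfl fun ν hν => ?_
  have h3 := hp (MvPolynomial.mem_support_iff.mp hν)
  rw [Finsupp.weight_apply, Finsupp.sum_fintype _ _ (by simp)] at h3
  simp only [Pi.one_apply, smul_eq_mul, mul_one] at h3
  have h4 : ∀ i ∈ ν.support, (QL D).vec i ^ ν i
      = (((ux D 2)⁻¹ : (LL D)ˣ) : LL D) ^ ν i * al D (xg D i) ^ ν i := by
    intro i _
    rw [QL_vec, mul_pow]
  rw [Finset.prod_congr rfl h4, Finset.prod_mul_distrib, Finset.prod_pow_eq_pow_sum]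
  have h5 : ∑ i ∈ ν.support, ν i = d := by
    rw [← h3]
    refine Finset.sum_subset (Finset.subset_univ _) fun i _ hi => ?_
    exact Finsupp.notMem_support_iff.mp hi
  rw [h5]
  ring

lemma F1_eq : eg D 1 ^ 2 + me D D.a * eg D 1 + me D D.c = 0 := by
  have h : Ideal.Quotient.mk (ID D) (F1 D) = 0 := by
    rw [Ideal.Quotient.eq_zero_iff_mem]
    exact Ideal.subset_span (by simp)
  have e : eg D 1 = Ideal.Quotient.mk (ID D) (X 3) := rfl
  rw [me_apply, me_apply, e, ← h]
  unfold F1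
  simp only [map_add, map_mul, map_pow]

lemma F2_eq : eg D 2 ^ 2 + (me D D.b0 + me D D.b1 * eg D 1) * eg D 2
    + (me D D.e0 + me D D.e1 * eg D 1) = 0 := by
  have h : Ideal.Quotient.mk (ID D) (F2 D) = 0 := by
    rw [Ideal.Quotient.eq_zero_iff_mem]
    exact Ideal.subset_span (by simp)
  have e : eg D 1 = Ideal.Quotient.mk (ID D) (X 3) := rfl
  have e2 : eg D 2 = Ideal.Quotient.mk (ID D) (X 4) := rfl
  rw [me_apply, me_apply, me_apply, me_apply, e, e2, ← h]
  unfold F2
  simp only [map_add, map_mul, map_pow]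

lemma zpow_neg_nat (d : ℕ) : ((ux D 2 ^ (-(d : ℤ)) : (LL D)ˣ) : LL D)
    = (((ux D 2)⁻¹ : (LL D)ˣ) : LL D) ^ d := by
  rw [zpow_neg, zpow_natCast, ← inv_pow, Units.val_pow_eq_pow_val]

lemma QL_rel (hD : D.Homog) : (QL D).Rel (iL D) D := by
  have hn : (QL D).n = al D (eg D 1) * (((ux D 2)⁻¹ : (LL D)ˣ) : LL D) ^ 2 := by
    change al D (eg D 1) * ((ux D 2 ^ (-2 : ℤ) : (LL D)ˣ) : LL D) = _
    rw [← zpow_neg_nat]
    rfl
  have hw : (QL D).w = al D (eg D 2) * (((ux D 2)⁻¹ : (LL D)ˣ) : LL D) ^ 5 := by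
    change al D (eg D 2) * ((ux D 2 ^ (-5 : ℤ) : (LL D)ˣ) : LL D) = _
    rw [← zpow_neg_nat]
    rfl
  constructor
  · have h := congrArg (al D) (F1_eq D)
    rw [map_zero, map_add, map_add, map_pow, map_mul] at h
    rw [hn, QL_ev D hD.a, QL_ev D hD.c]
    linear_combination (((ux D 2)⁻¹ : (LL D)ˣ) : LL D) ^ 4 * h
  · have h := congrArg (al D) (F2_eq D)
    simp only [map_zero, map_add, map_mul, map_pow] at h
    rw [hn, hw, QL_ev D hD.b0, QL_ev D hD.b1, QL_ev D hD.e0, QL_ev D hD.e1]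
    linear_combination (((ux D 2)⁻¹ : (LL D)ˣ) : LL D) ^ 10 * h

variable [hD : Fact D.Homog]

/-- The degree zero ring at `xyz`. -/
abbrev AF : Type := HomogeneousLocalization.Away (grD D) (fS D Finset.univ)

/-- The inclusion in the full localization. -/
noncomputable abbrev vL : AF D →+* LL D := algebraMap (AF D) (LL D)

lemma vL_inj : Function.Injective (vL D) := HomogeneousLocalization.val_injective _

lemma vL_mk (m : ℕ) (G : SD D) (hG : G ∈ grD D (m • (Finset.univ : Finset (Fin 3)).card)) :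
    vL D (HomogeneousLocalization.Away.mk (grD D) (fS_mem D Finset.univ) m G hG)
      * al D (fS D Finset.univ) ^ m = al D G := by
  rw [HomogeneousLocalization.algebraMap_apply, HomogeneousLocalization.Away.val_mk,
    Localization.mk_eq_mk', ← map_pow]
  exact IsLocalization.mk'_spec (LL D) G (⟨fS D Finset.univ ^ m, m, rfl⟩ :
    Submonoid.powers (fS D Finset.univ))

lemma vL_iAw (a : P) : vL D (iAw D (fS D Finset.univ) a) = iL D a := by
  change HomogeneousLocalization.val (HomogeneousLocalization.fromZeroRingHom (grD D)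
    (Submonoid.powers (fS D Finset.univ)) (algebraMap P (grD D 0) a)) = _
  have h : HomogeneousLocalization.val (HomogeneousLocalization.fromZeroRingHom (grD D)
    (Submonoid.powers (fS D Finset.univ)) (algebraMap P (grD D 0) a))
    = Localization.mk ((algebraMap P (grD D 0) a : grD D 0) : SD D) 1 := rfl
  rw [h, Localization.mk_one_eq_algebraMap]
  rfl

/-- The functions `x_{r'} / x_r`. -/
noncomputable def rat (r r' : Fin 3) : AF D :=
  HomogeneousLocalization.Away.mk (grD D)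
      (fS_mem D Finset.univ) 1 (xg D r' * fS D (Finset.univ.erase r)) (by
        have h := SetLike.GradedMul.mul_mem (xg_mem D r') (fS_mem D (Finset.univ.erase r))
        have h2 : 1 + (Finset.univ.erase r).card = 1 • (Finset.univ : Finset (Fin 3)).card := by
          fin_cases r <;> rfl
        rw [← h2]
        exact h)

omit hD in
lemma isUnit_erase (r : Fin 3) : IsUnit (al D (fS D (Finset.univ.erase r))) := by
  rw [← uS_val]
  exact Units.isUnit _

lemma vL_rat (r r' : Fin 3) : vL D (rat D r r') = ((ux D r' * (ux D r)⁻¹ : (LL D)ˣ) : LL D) := by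
  have h1 := vL_mk D 1 (xg D r' * fS D (Finset.univ.erase r)) (by
        have h := SetLike.GradedMul.mul_mem (xg_mem D r') (fS_mem D (Finset.univ.erase r))
        have h2 : 1 + (Finset.univ.erase r).card = 1 • (Finset.univ : Finset (Fin 3)).card := by
          fin_cases r <;> rfl
        rw [← h2]
        exact h)
  rw [pow_one, ← ux_mul_erase D r, map_mul, ← ux_val, ← mul_assoc] at h1
  have h2 := (isUnit_erase D r).mul_right_cancel h1
  change vL D (rat D r r') * (ux D r : LL D) = (ux D r' : LL D) at h2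
  rw [Units.val_mul, ← h2, mul_assoc, Units.mul_inv, mul_one]

lemma rat_mul (r r' : Fin 3) : rat D r r' * rat D r' r = 1 := by
  apply vL_inj D
  rw [map_mul, vL_rat, vL_rat, map_one, ← Units.val_mul]
  have : ux D r' * (ux D r)⁻¹ * (ux D r * (ux D r')⁻¹) = 1 := by
    rw [mul_assoc, inv_mul_cancel_left, mul_inv_cancel]
  rw [this, Units.val_one]

/-- `xy`. -/
lemma xy_mem (m : ℕ) : (xg D 0 * xg D 1) ^ m ∈ grD D (m * 2) := by
  have h := SetLike.GradedMul.mul_mem (xg_mem D 0) (xg_mem D 1)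
  exact SetLike.pow_mem_graded m h

/-- The elements `E / z^d` for `E` of degree `d`. -/
lemma divz_mem (d : ℕ) (E : SD D) (hE : E ∈ grD D d) :
    E * (xg D 0 * xg D 1) ^ d ∈ grD D (d • (Finset.univ : Finset (Fin 3)).card) := by
  have h := SetLike.GradedMul.mul_mem hE (xy_mem D d)
  have h2 : d + d * 2 = d • (Finset.univ : Finset (Fin 3)).card := by
    simp
    ring
  rw [← h2]
  exact h

/-- The elements `E / z^d` for `E` of degree `d`. -/
noncomputable def divz (d : ℕ) (E : SD D) (hE : E ∈ grD D d) : AF D :=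
  HomogeneousLocalization.Away.mk (grD D) (fS_mem D Finset.univ) d
    (E * (xg D 0 * xg D 1) ^ d) (divz_mem D d E hE)

lemma vL_divz (d : ℕ) (E : SD D) (hE : E ∈ grD D d) :
    vL D (divz D d E hE) = al D E * ((ux D 2 ^ (-(d : ℤ)) : (LL D)ˣ) : LL D) := by
  have h1 : vL D (divz D d E hE) * al D (fS D Finset.univ) ^ d
      = al D (E * (xg D 0 * xg D 1) ^ d) := vL_mk D d _ (divz_mem D d E hE)
  have h2 : al D (fS D Finset.univ) = (ux D 2 : LL D) * (ux D 0 * ux D 1 : (LL D)ˣ) := by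
    have : fS D Finset.univ = xg D 0 * xg D 1 * xg D 2 := Fin.prod_univ_three (fun r => xg D r)
    have e := congrArg (al D) this
    rw [e, map_mul, map_mul, ← ux_val, ← ux_val, ← ux_val, Units.val_mul]
    ring
  have e1 : al D (E * (xg D 0 * xg D 1) ^ d)
      = al D E * ((ux D 0 * ux D 1 : (LL D)ˣ) : LL D) ^ d := by
    rw [map_mul, map_pow, map_mul, ← ux_val, ← ux_val, Units.val_mul]
  rw [h2, e1, mul_pow, ← mul_assoc] at h1
  have h3 : IsUnit ((ux D 0 * ux D 1 : (LL D)ˣ) ^ d : LL D) := (Units.isUnit _).pow d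
  have h4 := h3.mul_right_cancel h1
  change vL D (divz D d E hE) * (ux D 2 : LL D) ^ d = al D E at h4
  rw [← h4, zpow_neg_nat, mul_assoc, ← mul_pow, Units.mul_inv, one_pow, mul_one]

/-- The quadruple. -/
noncomputable def qF : Quad (AF D) where
  X := ⟨rat D 2 0, rat D 0 2, rat_mul D 2 0, rat_mul D 0 2⟩
  Y := ⟨rat D 2 1, rat D 1 2, rat_mul D 2 1, rat_mul D 1 2⟩
  n := divz D 2 (eg D 1) (eg_mem D 1)
  w := divz D 5 (eg D 2) (eg_mem D 2)

lemma qF_map : (qF D).map (vL D) = QL D := by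
  ext1
  · apply Units.ext
    change vL D (rat D 2 0) = _
    rw [vL_rat]
    rfl
  · apply Units.ext
    change vL D (rat D 2 1) = _
    rw [vL_rat]
    rfl
  · change vL D (divz D 2 (eg D 1) (eg_mem D 1)) = _
    rw [vL_divz]
    rfl
  · change vL D (divz D 5 (eg D 2) (eg_mem D 2)) = _
    rw [vL_divz]
    rfl

lemma vL_mon (s : Idx) : vL D ((qF D).mon s) = monL D s := by
  rw [← Quad.map_mon, qF_map, QL_mon]

lemma vL_comb (g : Idx →₀ P) :
    vL D (comb (iAw D (fS D Finset.univ)) (qF D).mon g) = comb (iL D) (monL D) g := by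
  unfold comb
  rw [Finsupp.sum, map_sum]
  refine Finset.sum_congr rfl fun s _ => ?_
  rw [map_mul, vL_iAw, vL_mon]

lemma vL_ev (p : MvPolynomial (Fin 3) P) :
    vL D ((qF D).ev (iAw D (fS D Finset.univ)) p) = (QL D).ev (iL D) p := by
  rw [Quad.map_ev (iAw D (fS D Finset.univ)) (iL D) (RingHom.id P) (vL D) (fun a => vL_iAw D a),
    qF_map, MvPolynomial.map_id]

lemma qF_rel : (qF D).Rel (iAw D (fS D Finset.univ)) D := by
  have h := QL_rel D hD.out
  have hn : vL D (qF D).n = (QL D).n := by rw [← qF_map]; rfl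
  have hw : vL D (qF D).w = (QL D).w := by rw [← qF_map]; rfl
  constructor
  · apply vL_inj D
    simp only [map_add, map_mul, map_pow, vL_ev, hn, map_zero]
    exact h.r1
  · apply vL_inj D
    simp only [map_add, map_mul, map_pow, vL_ev, hn, hw, map_zero]
    exact h.r2

lemma qF_cu (r : Fin 3) : (Units.map (vL D).toMonoidHom ((qF D).cu r) : (LL D)ˣ)
    = ux D r * (ux D 2)⁻¹ := by
  fin_cases r
  · apply Units.ext
    exact vL_rat D 2 0
  · apply Units.ext
    exact vL_rat D 2 1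
  · change Units.map (vL D).toMonoidHom 1 = ux D 2 * (ux D 2)⁻¹
    rw [map_one, mul_inv_cancel]

lemma qF_ratio (r r' : Fin 3) : (qF D).ratio r r' = rat D r r' := by
  apply vL_inj D
  rw [vL_rat]
  unfold Quad.ratio
  have h : vL D (((qF D).cu r' * ((qF D).cu r)⁻¹ : (AF D)ˣ) : AF D)
      = ((Units.map (vL D).toMonoidHom ((qF D).cu r' * ((qF D).cu r)⁻¹) : (LL D)ˣ) : LL D) := rfl
  rw [h, map_mul, map_inv, qF_cu, qF_cu]
  congr 1
  rw [mul_inv, inv_inv]
  exact aux _ _ _
where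
  aux {G : Type} [CommGroup G] (a b c : G) : a * c⁻¹ * (b⁻¹ * c) = a * b⁻¹ := by
    rw [mul_comm b⁻¹ c, mul_assoc, inv_mul_cancel_left]

lemma qF_surj (h2 : T_GH) (c : AF D) :
    InSpan (iAw D (fS D Finset.univ)) (qF D).mon Set.univ c := by
  obtain ⟨m, G, hG, rfl⟩ := HomogeneousLocalization.Away.mk_surjective (grD D)
    (fS_mem D Finset.univ) c
  obtain ⟨c', ⟨g, -, hg⟩, hc'⟩ := expand D h2 Finset.univ m G (by rw [← smul_eq_mul]; exact hG)
  refine ⟨g, fun _ _ => Set.mem_univ _, ?_⟩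
  apply vL_inj D
  rw [vL_comb, ← hg]
  have h1 := vL_mk D m G hG
  rw [hc'] at h1
  have h3 : IsUnit (al D (fS D Finset.univ) ^ m) := by
    rw [← uS_val]
    exact (Units.isUnit _).pow m
  exact h3.mul_right_cancel h1

lemma qF_bij (h1 : T_GB) (h2 : T_GH) :
    Function.Bijective (comb (iAw D (fS D Finset.univ)) (qF D).mon) := by
  constructor
  · intro g h hgh
    have := congrArg (vL D) hgh
    rw [vL_comb, vL_comb] at this
    exact comb_inj D h1 this
  · intro c
    obtain ⟨g, -, hg⟩ := qF_surj D h2 c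
    exact ⟨g, hg.symm⟩

section Chart

variable (S : Finset (Fin 3)) (hx : fS D Finset.univ = fS D S * fS D Sᶜ)

lemma vL_awayMap_mk (m : ℕ) (G : SD D) (hG : G ∈ grD D (m • S.card)) :
    vL D (HomogeneousLocalization.awayMap (grD D) (fS_mem D Sᶜ) hx
      (HomogeneousLocalization.Away.mk (grD D) (fS_mem D S) m G hG)) * al D (fS D S) ^ m
      = al D G := by
  have h3 : IsUnit (al D (fS D Sᶜ) ^ m) := by
    rw [← uS_val]
    exact (Units.isUnit _).pow m
  apply h3.mul_right_cancel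
  rw [mul_assoc, ← mul_pow, ← map_mul, ← hx]
  rw [HomogeneousLocalization.algebraMap_apply, HomogeneousLocalization.awayMap_mk,
    HomogeneousLocalization.Away.val_mk, Localization.mk_eq_mk', ← map_pow, ← map_pow, ← map_mul]
  exact IsLocalization.mk'_spec (LL D) (G * fS D Sᶜ ^ m) (⟨fS D Finset.univ ^ m, m, rfl⟩ :
    Submonoid.powers (fS D Finset.univ))

lemma awayMap_inj (h1 : T_GB) :
    Function.Injective (HomogeneousLocalization.awayMap (grD D) (fS_mem D Sᶜ) hx) := by
  rw [injective_iff_map_eq_zero]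
  intro b hb
  obtain ⟨m, G, hG, rfl⟩ := HomogeneousLocalization.Away.mk_surjective (grD D)
    (fS_mem D S) b
  have h := vL_awayMap_mk D S hx m G hG
  rw [hb, map_zero, zero_mul] at h
  have hG0 : G = 0 := by
    apply al_inj D h1
    rw [map_zero, h]
  subst hG0
  apply HomogeneousLocalization.val_injective
  rw [HomogeneousLocalization.Away.val_mk, HomogeneousLocalization.val_zero,
    Localization.mk_zero]

lemma awayMap_iAw (a : P) :
    HomogeneousLocalization.awayMap (grD D) (fS_mem D Sᶜ) hx (iAw D (fS D S) a)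
      = iAw D (fS D Finset.univ) a :=
  HomogeneousLocalization.awayMap_fromZeroRingHom (grD D) (fS_mem D Sᶜ) hx _

lemma mon_mem_range (s : Idx) (hs : s ∈ reg S) :
    ∃ b, HomogeneousLocalization.awayMap (grD D) (fS_mem D Sᶜ) hx b = (qF D).mon s := by
  let M : ℕ := ∑ r, (expo s r).natAbs
  have hM : ∀ r, 0 ≤ expo s r + if r ∈ S then (M : ℤ) else 0 := by
    intro r
    split_ifs with h
    · have h1 : (expo s r).natAbs ≤ M :=
        Finset.single_le_sum (f := fun r => (expo s r).natAbs) (fun _ _ => Nat.zero_le _)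
          (Finset.mem_univ r)
      omega
    · rw [add_zero]
      exact hs r h
  let ν : Fin 3 →₀ ℕ :=
    Finsupp.equivFunOnFinite.symm (fun r => (expo s r + if r ∈ S then (M : ℤ) else 0).toNat)
  have hν : ∀ r, (ν r : ℤ) = expo s r + if r ∈ S then (M : ℤ) else 0 := by
    intro r
    simp only [ν, Finsupp.equivFunOnFinite_symm_apply_apply]
    exact Int.toNat_of_nonneg (hM r)
  have hdeg : ∑ r, ν r + dgN s.2.2 = M * S.card := by
    have : ((∑ r, ν r + dgN s.2.2 : ℕ) : ℤ) = ((M * S.card : ℕ) : ℤ) := by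
      push_cast
      rw [Fin.sum_univ_three, hν, hν, hν, card_eq, ← dg_eq]
      have e0 : expo s 0 = s.1 := rfl
      have e1 : expo s 1 = s.2.1 := rfl
      have e2 : expo s 2 = -s.1 - s.2.1 - dg s.2.2 := rfl
      rw [e0, e1, e2]
      simp only [mul_add, mul_ite, mul_one, mul_zero]
      ring
    exact_mod_cast this
  have hG := term_mem D ν s.2.2 1 (M • S.card) (by rw [smul_eq_mul]; exact hdeg)
  refine ⟨HomogeneousLocalization.Away.mk (grD D) (fS_mem D S) M _ hG, ?_⟩
  apply vL_inj D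
  rw [vL_mon]
  have h3 : IsUnit (al D (fS D S) ^ M) := by
    rw [← uS_val]
    exact (Units.isUnit _).pow M
  apply h3.mul_right_cancel
  rw [vL_awayMap_mk, monL_clear D S M s ν hν]

lemma chart_iff (h2 : T_GH) (c : AF D) :
    (∃ b, HomogeneousLocalization.awayMap (grD D) (fS_mem D Sᶜ) hx b = c) ↔
        InSpan (iAw D (fS D Finset.univ)) (qF D).mon (reg S) c := by
  constructor
  · rintro ⟨b, rfl⟩
    obtain ⟨m, G, hG, rfl⟩ := HomogeneousLocalization.Away.mk_surjective (grD D)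
      (fS_mem D S) b
    obtain ⟨c', ⟨g, hgs, hg⟩, hc'⟩ := expand D h2 S m G (by rw [← smul_eq_mul]; exact hG)
    refine ⟨g, hgs, ?_⟩
    apply vL_inj D
    rw [vL_comb, ← hg]
    have h1 := vL_awayMap_mk D S hx m G hG
    rw [hc'] at h1
    have h3 : IsUnit (al D (fS D S) ^ m) := by
      rw [← uS_val]
      exact (Units.isUnit _).pow m
    exact h3.mul_right_cancel h1
  · rintro ⟨g, hgs, rfl⟩
    have h : ∀ s ∈ g.support, iAw D (fS D Finset.univ) (g s) * (qF D).mon s ∈
        (HomogeneousLocalization.awayMap (grD D) (fS_mem D Sᶜ) hx).range := by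
      intro s hs
      obtain ⟨b, hb⟩ := mon_mem_range D S hx s (hgs s hs)
      exact ⟨iAw D (fS D S) (g s) * b, by rw [map_mul, awayMap_iAw, hb]⟩
    have h' := Subring.sum_mem _ h
    obtain ⟨b, hb⟩ := h'
    exact ⟨b, hb⟩

end Chart

end

end AWx

/-- The rings of the charts. -/
theorem aw (h1 : T_GB) (h2 : T_GH) : T_AW := by
  intro P _ D _
  refine ⟨AWx.qF D, AWx.qF_bij D h1 h2, AWx.qF_rel D, AWx.qF_ratio D, ?_⟩
  intro S _ hx
  exact ⟨AWx.awayMap_inj D S hx h1, AWx.chart_iff D S hx h2⟩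

end Pool.Agent.H1.CM
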