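import Mathlib
import Pool.Agent.H1.CM.Targets3

/-!
# Sections of `Proj` over basic open sets (module PSTD, part 1)
-/

open CategoryTheory AlgebraicGeometry Limits HomogeneousLocalization

namespace Pool.Agent.H1.CM

namespace PSTDx

universe u

section General

variable {σ : Type*} {A : Type u} [CommRing A] [SetLike σ A] [AddSubgroupClass σ A]
  (𝒜 : ℕ → σ) [GradedRing 𝒜] {f : A} {m : ℕ} (f_deg : f ∈ 𝒜 m) (hm : 0 < m)

include f_deg hm in
lemma awayToSection_bij : Function.Bijective (Proj.awayToSection 𝒜 f).hom := by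
  have h : IsIso (Proj.awayToSection 𝒜 f) := by
    have := (Proj.basicOpenIsoAway 𝒜 f f_deg hm).isIso_hom
    rwa [Proj.basicOpenIsoAway_hom] at this
  exact ConcreteCategory.bijective_of_isIso (Proj.awayToSection 𝒜 f)

include f_deg hm in
lemma SpecMap_awayToSection_awayι :
    Spec.map (Proj.awayToSection 𝒜 f) ≫ Proj.awayι 𝒜 f f_deg hm
      = (Proj.isAffineOpen_basicOpen 𝒜 f f_deg hm).fromSpec := by
  have h1 : (Proj.basicOpenIsoSpec 𝒜 f f_deg hm).hom ≫ Proj.awayι 𝒜 f f_deg hm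
      = (Proj.basicOpen 𝒜 f).ι := by
    rw [Proj.awayι, Iso.hom_inv_id_assoc]
  rw [Proj.basicOpenIsoSpec_hom, Proj.basicOpenToSpec, Category.assoc] at h1
  rw [← cancel_epi (Proj.isAffineOpen_basicOpen 𝒜 f f_deg hm).isoSpec.hom,
    IsAffineOpen.isoSpec_hom_fromSpec, IsAffineOpen.isoSpec_hom, h1]

include hm in
lemma basicOpen_section {g : A} {m' : ℕ} (g_deg : g ∈ 𝒜 m') (hm' : 0 < m') :
    (Proj 𝒜).basicOpen ((Proj.awayToSection 𝒜 f).hom (Away.isLocalizationElem f_deg g_deg))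
      = Proj.basicOpen 𝒜 f ⊓ Proj.basicOpen 𝒜 g := by
  have hU := Proj.isAffineOpen_basicOpen 𝒜 f f_deg hm
  have h1 : hU.fromSpec ⁻¹ᵁ Proj.basicOpen 𝒜 g = hU.fromSpec ⁻¹ᵁ
      (Proj 𝒜).basicOpen ((Proj.awayToSection 𝒜 f).hom (Away.isLocalizationElem f_deg g_deg)) := by
    rw [hU.fromSpec_preimage_basicOpen, ← SpecMap_awayToSection_awayι 𝒜 f_deg hm,
      Scheme.Hom.comp_preimage, Proj.awayι_preimage_basicOpen 𝒜 f_deg hm g_deg hm']
    rfl
  apply le_antisymm
  · refine le_inf (Scheme.basicOpen_le _ _) ?_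
    intro x hx
    have hxU : x ∈ Set.range hU.fromSpec := by
      rw [hU.range_fromSpec]
      exact Scheme.basicOpen_le _ _ hx
    obtain ⟨y, rfl⟩ := hxU
    have h2 : y ∈ hU.fromSpec ⁻¹ᵁ (Proj 𝒜).basicOpen ((Proj.awayToSection 𝒜 f).hom
      (Away.isLocalizationElem f_deg g_deg)) := hx
    rw [← h1] at h2
    exact h2
  · intro x hx
    have hxU : x ∈ Set.range hU.fromSpec := by
      rw [hU.range_fromSpec]
      exact hx.1
    obtain ⟨y, rfl⟩ := hxU
    have h2 : y ∈ hU.fromSpec ⁻¹ᵁ Proj.basicOpen 𝒜 g := hx.2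
    rw [h1] at h2
    exact h2

end General

lemma appLE_top_eq {X Y : Scheme.{u}} (f : X ⟶ Y) (U : X.Opens) (e : U ≤ f ⁻¹ᵁ ⊤) :
    f.appLE ⊤ U e = f.appTop ≫ U.ι.appTop ≫ U.topIso.hom := by
  have h : U.ι.appTop ≫ U.topIso.hom = X.presheaf.map (homOfLE (le_top : U ≤ ⊤)).op := by
    rw [Scheme.Opens.ι_appTop, Scheme.Opens.topIso_hom]
    exact (X.presheaf.map_comp _ _).symm
  rw [h]
  rfl

section Str

variable {P : Type} [CommRing P] (D : Data P) [hD : Fact D.Homog]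

lemma ι_projStr (f : SD D) (m : ℕ) (f_deg : f ∈ grD D m) (hm : 0 < m) :
    (Proj.basicOpen (grD D) f).ι ≫ projStr D
      = Proj.basicOpenToSpec (grD D) f ≫ Spec.map (CommRingCat.ofHom (iAw D f)) := by
  have h1 : (Proj.basicOpenIsoSpec (grD D) f f_deg hm).hom ≫ Proj.awayι (grD D) f f_deg hm
      = (Proj.basicOpen (grD D) f).ι := by
    rw [Proj.awayι, Iso.hom_inv_id_assoc]
  rw [← h1, Proj.basicOpenIsoSpec_hom, Category.assoc, projStr,
    Proj.awayι_toSpecZero_assoc, ← Spec.map_comp]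
  rfl

lemma scal_eq (f : SD D) (m : ℕ) (f_deg : f ∈ grD D m) (hm : 0 < m) :
    scal (projStr D) (Proj.basicOpen (grD D) f)
      = (Proj.awayToSection (grD D) f).hom.comp (iAw D f) := by
  have h1 := congrArg (fun φ => Scheme.Hom.appTop φ) (ι_projStr D f m f_deg hm)
  simp only [Scheme.Hom.comp_appTop] at h1
  have h2 : (Proj.basicOpenToSpec (grD D) f).appTop
      = (Scheme.ΓSpecIso _).hom ≫ Proj.awayToSection (grD D) f ≫
        (Proj.basicOpen (grD D) f).topIso.inv := Proj.basicOpenToSpec_app_top (grD D) f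
  rw [h2] at h1
  have h3 : (projStr D).appLE ⊤ (Proj.basicOpen (grD D) f) (by simp)
      = (projStr D).appTop ≫ (Proj.basicOpen (grD D) f).ι.appTop ≫
        (Proj.basicOpen (grD D) f).topIso.hom := appLE_top_eq _ _ _
  have h4 : (projStr D).appLE ⊤ (Proj.basicOpen (grD D) f) (by simp)
      = (Scheme.ΓSpecIso (CommRingCat.of P)).hom ≫ CommRingCat.ofHom (iAw D f) ≫
        Proj.awayToSection (grD D) f := by
    rw [h3, ← Category.assoc, h1, Category.assoc, Category.assoc, Category.assoc, Iso.inv_hom_id,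
      Category.comp_id, ← Scheme.ΓSpecIso_naturality_assoc]
  have h5 : (Scheme.ΓSpecIso (CommRingCat.of P)).inv ≫
      (projStr D).appLE ⊤ (Proj.basicOpen (grD D) f) (by simp)
      = CommRingCat.ofHom (iAw D f) ≫ Proj.awayToSection (grD D) f := by
    rw [h4, Iso.inv_hom_id_assoc]
  have h6 := congrArg (fun φ => φ.hom) h5
  exact h6

end Str

end PSTDx

end Pool.Agent.H1.CM
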