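import Mathlib
import Pool.Agent.H19.CMX.PSTD1

/-!
# `Proj` has the standard charts (module PSTD)
-/

open CategoryTheory AlgebraicGeometry Limits HomogeneousLocalization

namespace Pool.Agent.H1.CM

namespace PSTDx

section

variable {P : Type} [CommRing P] (D : Data P) [hD : Fact D.Homog]

/-- The charts. -/
noncomputable def VV (S : Finset (Fin 3)) : (Proj (grD D)).Opens :=
  Proj.basicOpen (grD D) (fS D S)

lemma mem_VV (S : Finset (Fin 3)) (x : Proj (grD D)) :
    x ∈ VV D S ↔ ∀ r ∈ S, x ∈ Proj.basicOpen (grD D) (xg D r) := by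
  classical
  unfold VV
  induction S using Finset.induction_on with
  | empty =>
    have h : fS D ∅ = 1 := Finset.prod_empty
    rw [h, Proj.basicOpen_one]
    simp
  | insert a S ha ih =>
    have h : fS D (insert a S) = xg D a * fS D S := Finset.prod_insert ha
    rw [h, Proj.basicOpen_mul, TopologicalSpace.Opens.mem_inf, ih]
    simp only [Finset.mem_insert, forall_eq_or_imp]

lemma VV_inter (S T : Finset (Fin 3)) : VV D S ⊓ VV D T = VV D (S ∪ T) := by
  ext x
  change x ∈ VV D S ⊓ VV D T ↔ x ∈ VV D (S ∪ T)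
  rw [TopologicalSpace.Opens.mem_inf, mem_VV, mem_VV, mem_VV]
  constructor
  · rintro ⟨h1, h2⟩ r hr
    rcases Finset.mem_union.mp hr with h | h
    · exact h1 r h
    · exact h2 r h
  · intro h
    exact ⟨fun r hr => h r (Finset.mem_union_left _ hr), fun r hr => h r (Finset.mem_union_right _ hr)⟩

lemma VV_mono {S T : Finset (Fin 3)} (h : S ⊆ T) : VV D T ≤ VV D S := by
  intro x hx
  have h1 := (mem_VV D T x).mp hx
  exact (mem_VV D S x).mpr fun r hr => h1 r (h hr)

lemma VV_empty : VV D ∅ = ⊤ := by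
  have h : fS D ∅ = 1 := Finset.prod_empty
  unfold VV
  rw [h, Proj.basicOpen_one]

/-- The generators of the coordinate ring. -/
lemma irrel_le (x : Proj (grD D))
    (h : ∀ j : Fin 5, Ideal.Quotient.mk (ID D) (MvPolynomial.X j) ∈ x.asHomogeneousIdeal) : False := by
  classical
  apply x.not_irrelevant_le
  intro f hf
  have hf0 := (HomogeneousIdeal.mem_irrelevant_iff _ _).mp hf
  change f ∈ x.asHomogeneousIdeal.toIdeal
  rw [← DirectSum.sum_support_decompose (grD D) f]
  refine Ideal.sum_mem _ fun i hi => ?_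
  have hi0 : i ≠ 0 := by
    rintro rfl
    rw [DFinsupp.mem_support_iff] at hi
    apply hi
    apply Subtype.ext
    exact hf0
  obtain ⟨F, hF, hFe⟩ := (DirectSum.decompose (grD D) f i).2
  have hF' : MvPolynomial.IsWeightedHomogeneous wt F i := hF
  rw [← hFe]
  change Ideal.Quotient.mk (ID D) F ∈ x.asHomogeneousIdeal.toIdeal
  rw [F.as_sum, map_sum]
  refine Ideal.sum_mem _ fun ν hν => ?_
  have hw := hF' (MvPolynomial.mem_support_iff.mp hν)
  have hν0 : ∃ j, ν j ≠ 0 := by
    by_contra hcon
    push Not at hcon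
    have : ν = 0 := Finsupp.ext hcon
    rw [this, map_zero] at hw
    exact hi0 hw.symm
  obtain ⟨j, hj⟩ := hν0
  have hdvd : MvPolynomial.X j ∣ MvPolynomial.monomial ν (MvPolynomial.coeff ν F) := by
    rw [MvPolynomial.X_dvd_monomial]
    exact Or.inr hj
  obtain ⟨G, hG⟩ := hdvd
  rw [hG, map_mul]
  exact Ideal.mul_mem_right _ _ (h j)

lemma VV_cover : ⨆ r : Fin 3, VV D {r} = ⊤ := by
  rw [eq_top_iff]
  intro x _
  rw [TopologicalSpace.Opens.mem_iSup]
  by_contra hcon
  push Not at hcon
  have h1 : ∀ r : Fin 3, xg D r ∈ x.asHomogeneousIdeal := by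
    intro r
    by_contra hr
    apply hcon r
    rw [mem_VV]
    intro r' hr'
    rw [Finset.mem_singleton] at hr'
    subst hr'
    rwa [Proj.mem_basicOpen]
  have hprime : x.asHomogeneousIdeal.toIdeal.IsPrime := inferInstance
  have h2 : ∀ (d : ℕ), 0 < d → ∀ p : MvPolynomial (Fin 3) P, p.IsHomogeneous d →
      Ideal.Quotient.mk (ID D) (emb p) ∈ x.asHomogeneousIdeal.toIdeal := by
    intro d hd p hp
    rw [p.as_sum, map_sum, map_sum]
    refine Ideal.sum_mem _ fun ν hν => ?_
    have hw := hp (MvPolynomial.mem_support_iff.mp hν)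
    have hν0 : ∃ j, ν j ≠ 0 := by
      by_contra hcon
      push Not at hcon
      have : ν = 0 := Finsupp.ext hcon
      rw [this, map_zero] at hw
      omega
    obtain ⟨j, hj⟩ := hν0
    have hdvd : MvPolynomial.X j ∣ MvPolynomial.monomial ν (MvPolynomial.coeff ν p) := by
      rw [MvPolynomial.X_dvd_monomial]
      exact Or.inr hj
    obtain ⟨G, hG⟩ := hdvd
    rw [hG, map_mul, map_mul]
    refine Ideal.mul_mem_right _ _ ?_
    have : emb (MvPolynomial.X j : MvPolynomial (Fin 3) P)
        = MvPolynomial.X (Fin.castLE (by norm_num) j) := MvPolynomial.rename_X _ _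
    rw [this]
    exact h1 j
  have hF1 : Ideal.Quotient.mk (ID D) (F1 D) = 0 := by
    rw [Ideal.Quotient.eq_zero_iff_mem]
    exact Ideal.subset_span (by simp)
  have hF2 : Ideal.Quotient.mk (ID D) (F2 D) = 0 := by
    rw [Ideal.Quotient.eq_zero_iff_mem]
    exact Ideal.subset_span (by simp)
  have hN : Ideal.Quotient.mk (ID D) (MvPolynomial.X 3) ∈ x.asHomogeneousIdeal.toIdeal := by
    apply hprime.mem_of_pow_mem 2
    have e : Ideal.Quotient.mk (ID D) (MvPolynomial.X 3) ^ 2
        = -(Ideal.Quotient.mk (ID D) (emb D.a) * Ideal.Quotient.mk (ID D) (MvPolynomial.X 3))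
          - Ideal.Quotient.mk (ID D) (emb D.c) := by
      rw [← sub_eq_zero, ← hF1]
      unfold F1
      simp only [map_add, map_mul, map_pow]
      ring
    rw [e]
    exact Ideal.sub_mem _ (Ideal.neg_mem_iff _ |>.mpr
      (Ideal.mul_mem_right _ _ (h2 2 (by norm_num) _ hD.out.a))) (h2 4 (by norm_num) _ hD.out.c)
  have hW : Ideal.Quotient.mk (ID D) (MvPolynomial.X 4) ∈ x.asHomogeneousIdeal.toIdeal := by
    apply hprime.mem_of_pow_mem 2
    have e : Ideal.Quotient.mk (ID D) (MvPolynomial.X 4) ^ 2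
        = -((Ideal.Quotient.mk (ID D) (emb D.b0) + Ideal.Quotient.mk (ID D) (emb D.b1)
            * Ideal.Quotient.mk (ID D) (MvPolynomial.X 3))
            * Ideal.Quotient.mk (ID D) (MvPolynomial.X 4))
          - (Ideal.Quotient.mk (ID D) (emb D.e0) + Ideal.Quotient.mk (ID D) (emb D.e1)
            * Ideal.Quotient.mk (ID D) (MvPolynomial.X 3)) := by
      rw [← sub_eq_zero, ← hF2]
      unfold F2
      simp only [map_add, map_mul, map_pow]
      ring
    rw [e]
    refine Ideal.sub_mem _ (Ideal.neg_mem_iff _ |>.mpr (Ideal.mul_mem_right _ _ ?_)) ?_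
    · exact Ideal.add_mem _ (h2 5 (by norm_num) _ hD.out.b0)
        (Ideal.mul_mem_right _ _ (h2 3 (by norm_num) _ hD.out.b1))
    · exact Ideal.add_mem _ (h2 10 (by norm_num) _ hD.out.e0)
        (Ideal.mul_mem_right _ _ (h2 8 (by norm_num) _ hD.out.e1))
  apply irrel_le D x
  intro j
  fin_cases j
  · exact h1 0
  · exact h1 1
  · exact h1 2
  · exact hN
  · exact hW

/-- Sections. -/
noncomputable def sg (S : Finset (Fin 3)) : Away (grD D) (fS D S) →+* Γ(Proj (grD D), VV D S) :=
  (Proj.awayToSection (grD D) (fS D S)).hom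

lemma sg_bij {S : Finset (Fin 3)} (h : S.Nonempty) : Function.Bijective (sg D S) :=
  awayToSection_bij (grD D) (fS_mem D S) (Finset.card_pos.mpr h)

omit hD in
lemma fS_split (S : Finset (Fin 3)) : fS D Finset.univ = fS D S * fS D Sᶜ :=
  (Finset.prod_mul_prod_compl S (fun r => xg D r)).symm

lemma rs_sg (S : Finset (Fin 3)) (b : Away (grD D) (fS D S)) :
    rs (Proj (grD D)) (VV_mono D (Finset.subset_univ S)) (sg D S b)
      = sg D Finset.univ (awayMap (grD D) (fS_mem D Sᶜ) (fS_split D S) b) := by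
  have h := Proj.awayMap_awayToSection (grD D) (fS_mem D Sᶜ) (fS_split D S)
  have h2 := congrArg (fun φ => φ.hom b) h
  exact h2.symm

lemma scal_sg {S : Finset (Fin 3)} (h : S.Nonempty) :
    scal (projStr D) (VV D S) = (sg D S).comp (iAw D (fS D S)) :=
  scal_eq D (fS D S) S.card (fS_mem D S) (Finset.card_pos.mpr h)

lemma map_comb {C C' : Type} [CommRing C] [CommRing C'] (ι : P →+* C) (ψ : C →+* C')
    (q : Quad C) (g : Idx →₀ P) :
    ψ (comb ι q.mon g) = comb (ψ.comp ι) (q.map ψ).mon g := by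
  unfold comb
  rw [Finsupp.sum, map_sum]
  refine Finset.sum_congr rfl fun s _ => ?_
  change _ = (ψ.comp ι) (g s) * (Quad.map ψ q).mon s
  rw [map_mul, Quad.map_mon]
  rfl

lemma map_cu {C C' : Type} [CommRing C] [CommRing C'] (ψ : C →+* C')
    (q : Quad C) (r : Fin 3) : (q.map ψ).cu r = Units.map ψ.toMonoidHom (q.cu r) := by
  fin_cases r
  · rfl
  · rfl
  · exact (map_one _).symm

lemma map_ratio {C C' : Type} [CommRing C] [CommRing C'] (ψ : C →+* C')
    (q : Quad C) (r r' : Fin 3) : (q.map ψ).ratio r r' = ψ (q.ratio r r') := by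
  unfold Quad.ratio
  rw [map_cu, map_cu, ← map_inv, ← map_mul]
  rfl

end

end PSTDx

open PSTDx in
/-- `Proj` has the standard charts. -/
theorem pstd (h1 : T_AW) (_h2 : T_GB) : T_PSTD := by
  intro P _ D _
  obtain ⟨q, hbij, hrel, hratio, hchart⟩ := h1 D
  have hle : ∀ S : Finset (Fin 3), VV D Finset.univ ≤ VV D S := fun S =>
    VV_mono D (Finset.subset_univ S)
  have huniv : (Finset.univ : Finset (Fin 3)).Nonempty := ⟨0, Finset.mem_univ _⟩
  have hinj : ∀ (S : Finset (Fin 3)), S.Nonempty →
      Function.Injective (rs (Proj (grD D)) (hle S)) := by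
    intro S hS a b hab
    obtain ⟨a', rfl⟩ := (sg_bij D hS).2 a
    obtain ⟨b', rfl⟩ := (sg_bij D hS).2 b
    rw [rs_sg, rs_sg] at hab
    have := (hchart S hS (fS_split D S)).1 ((sg_bij D huniv).1 hab)
    rw [this]
  refine ⟨{
    V := VV D
    q := q.map (sg D Finset.univ)
    affine := ?_
    inter := fun S T _ _ => VV_inter D S T
    le := fun S _ => hle S
    emp := VV_empty D
    cover := VV_cover D
    inj := fun S hS => hinj S hS
    frame := ?_
    rel := ?_
    basic := ?_ }, fun U => rfl⟩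
  · intro S hS
    exact Proj.isAffineOpen_basicOpen (grD D) (fS D S) (fS_mem D S) (Finset.card_pos.mpr hS)
  · rw [scal_sg D huniv]
    constructor
    · have : comb ((sg D Finset.univ).comp (iAw D (fS D Finset.univ)))
          (q.map (sg D Finset.univ)).mon
          = (sg D Finset.univ) ∘ (comb (iAw D (fS D Finset.univ)) q.mon) := by
        funext g
        exact (map_comb _ _ _ _).symm
      rw [this]
      exact (sg_bij D huniv).comp hbij
    · intro S hS c
      have hB : BX (Proj (grD D)) (VV D) S = (rs (Proj (grD D)) (hle S)).range := by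
        unfold BX
        rw [dif_pos (hle S)]
      rw [hB]
      constructor
      · rintro ⟨b, rfl⟩
        obtain ⟨b', rfl⟩ := (sg_bij D hS).2 b
        obtain ⟨g, hg, hg'⟩ := ((hchart S hS (fS_split D S)).2 _).mp ⟨b', rfl⟩
        refine ⟨g, hg, ?_⟩
        rw [rs_sg, hg', map_comb]
      · rintro ⟨g, hg, rfl⟩
        obtain ⟨b, hb⟩ := ((hchart S hS (fS_split D S)).2 _).mpr ⟨g, hg, rfl⟩
        refine ⟨sg D S b, ?_⟩
        rw [rs_sg, hb, map_comb]
  · rw [scal_sg D huniv]
    have h := Quad.Rel.map (ι' := (sg D Finset.univ).comp (iAw D (fS D Finset.univ)))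
      (RingHom.id P) (sg D Finset.univ) (fun _ => rfl) hrel
    have hDid : D.map (RingHom.id P) = D := by
      ext1 <;> exact MvPolynomial.map_id _
    rwa [hDid] at h
  · intro r r' u hu
    have hr : ({r} : Finset (Fin 3)).Nonempty := Finset.singleton_nonempty r
    obtain ⟨b, rfl⟩ := (sg_bij D hr).2 u
    have hfr : fS D {r} = xg D r := Finset.prod_singleton _ _
    have hc1 : (({r} : Finset (Fin 3))).card = 1 := Finset.card_singleton r
    have hb : b = Away.isLocalizationElem (fS_mem D {r}) (xg_mem D r') := by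
      apply (hchart {r} hr (fS_split D {r})).1
      apply (sg_bij D huniv).1
      rw [← rs_sg, hu, map_ratio, hratio]
      congr 1
      apply HomogeneousLocalization.val_injective
      rw [awayMap_mk, Away.val_mk, Away.val_mk]
      have e1 : (Finset.univ.erase r : Finset (Fin 3)) = ({r} : Finset (Fin 3))ᶜ := by
        ext s
        simp
      congr 1
      rw [e1, hc1, pow_one, pow_one]
    rw [hb]
    have h3 := basicOpen_section (grD D) (fS_mem D {r}) (Finset.card_pos.mpr hr) (xg_mem D r')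
      one_pos
    refine h3.trans ?_
    ext x
    change x ∈ VV D {r} ⊓ Proj.basicOpen (grD D) (xg D r') ↔ x ∈ VV D {r, r'}
    rw [TopologicalSpace.Opens.mem_inf, mem_VV, mem_VV]
    simp

end Pool.Agent.H1.CM
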